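import Pool.Agent.Lib.MP_d20c4f_pr.H53Own

/-! Nested coupling of uniform random regular graphs, for all admissible pairs of degrees. -/

namespace Pool.Agent.Results.MP_d20c4f_pr.NestedCoupling

open MeasureTheory ProbabilityTheory

open Classical in
/-- The uniform distribution on the `d`-regular simple graphs with vertex set `Fin n`. -/
noncomputable def regularLaw (n d : ℕ) : Measure (SimpleGraph (Fin n)) :=
  uniformOn {G | G.IsRegularOfDegree d}

open Pool.Agent.Lib.MP_d20c4f_pr in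
theorem result (ε : ℝ) (hε : 0 < ε) : ∃ N : ℕ, ∀ n : ℕ, N ≤ n → ∀ d₁ d₂ : ℕ,
    d₁ ≤ d₂ → d₂ + 1 ≤ n → Even (d₁ * n) → Even (d₂ * n) →
    ¬(d₁ = 1 ∧ d₂ = 2) → ¬(d₁ + 3 = n ∧ d₂ + 2 = n) →
    ∃ P : Measure (SimpleGraph (Fin n) × SimpleGraph (Fin n)), IsProbabilityMeasure P ∧
      P.map Prod.fst = regularLaw n d₁ ∧ P.map Prod.snd = regularLaw n d₂ ∧
      1 - ε ≤ P.real {p | p.1.edgeSet ⊆ p.2.edgeSet} := by
  obtain ⟨N, hN⟩ := Filter.eventually_atTop.1 (H53.cpl_of_chi (H53.chi_of_main H53.main) hε)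
  refine ⟨N + 3, fun n hn a b h1 h2 h3 h4 h5 h6 => ?_⟩
  have := H53.graph_singleton n
  obtain ⟨P, p1, p2, p3, p4⟩ := H53.cpl_measure
    (hN n (by omega) a b h1 (by omega) h5 (by omega) h3 h4)
  have e : ∀ d, regularLaw n d = uniformOn ((RG (Fin n) d : Finset _) : Set _) := by
    intro d
    unfold regularLaw
    congr 1
    ext G
    simp only [Set.mem_ofPred_eq, Finset.mem_coe, mem_RG, SimpleGraph.IsRegularOfDegree,
      ← SimpleGraph.card_neighborSet_eq_degree, ← Nat.card_eq_fintype_card,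
      Nat.card_coe_set_eq]
  refine ⟨P, p1, by rw [e, p2], by rw [e, p3], ?_⟩
  simpa only [SimpleGraph.edgeSet_subset_edgeSet] using p4

end Pool.Agent.Results.MP_d20c4f_pr.NestedCoupling
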